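import Pool.Agent.LE.StmtsX
import Pool.Agent.Helper54_BED.All
import Pool.Agent.Helper54_LE.FMN

/-!
# CPF: the probability of conduction near the band edge
-/

set_option autoImplicit false
set_option linter.unusedSectionVars false

open scoped Topology ENNReal NNReal
open MeasureTheory Filter ProbabilityTheory

noncomputable section

namespace Pool.Agent.LE.H54W

open Pool.Agent.Anderson Pool.Agent.Loc Pool.Agent.Mob Pool.Agent.Helper54.Bal Pool.Agent.LY
  Pool.Agent.LE.H54 Pool.Agent.BED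

variable {d : ℕ}

/-- the potential about `c`, divided by `σ` -/
def xi (σ : ℝ) (c : Site d) (y : Site d) (V : Site d → ℝ) : ℝ := V (c + y) / σ

theorem measurable_xi (σ : ℝ) (c y : Site d) : Measurable (xi σ c y) := by
  have h : Measurable fun V : Site d → ℝ => V (c + y) := measurable_pi_apply (c + y)
  exact h.div_const σ

theorem map_xi {σ : ℝ} (hσ : σ ≠ 0) (c y : Site d) :
    (PP d (gl σ)).map (xi σ c y) = gaussianReal 0 1 := by
  have h2 : MeasurePreserving (fun V : Site d → ℝ => V (c + y)) (PP d (gl σ)) (gl σ) := by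
    unfold PP
    exact measurePreserving_eval_infinitePi (fun _ : Site d => gl σ) (c + y)
  have h3 : xi σ c y = (fun t : ℝ => t / σ) ∘ fun V : Site d → ℝ => V (c + y) := rfl
  rw [h3, ← Measure.map_map (by fun_prop) h2.measurable, h2.map_eq]
  unfold gl
  rw [Measure.map_map (by fun_prop) (by fun_prop)]
  have h4 : ((fun t : ℝ => t / σ) ∘ fun t : ℝ => σ * t) = id := by
    funext t
    simp only [Function.comp, id]
    field_simp
  rw [h4, Measure.map_id]

theorem indep_xi {σ : ℝ} (c : Site d) : iIndepFun (xi σ c) (PP d (gl σ)) := by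
  have h1 : iIndepFun (fun (x : Site d) (V : Site d → ℝ) => V x) (PP d (gl σ)) := by
    unfold PP
    exact iIndepFun_infinitePi (X := fun _ r => r) (fun _ => measurable_id)
  have h2 := h1.precomp (g := fun y : Site d => c + y) (add_right_injective c)
  exact h2.comp (fun _ t => t / σ) (fun _ => by fun_prop)

/-- the conduction estimate for a given energy `z` with a flat landscape function -/
theorem cpf_core (cdf : CdfStmt) (hd : 3 ≤ d) {Cs : ℝ} (hCs : 1 ≤ Cs)
    (hsum : ∀ (M : ℕ) [NeZero M] (z t a : ℝ) (V : Tor d M → ℝ), 3 ≤ M → 1 ≤ t → t ≤ M →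
      z ≤ 2 * d + 1 → (∀ x, -1 ≤ V x) → (AM z V).PosDef → 1 / 2 ≤ a → a ≤ 15 * t →
      (∀ x, a ≤ DD z V x) → (∀ x, DD z V x ≤ 3 / 2 * a) →
      ∀ x, ∑ y, (GM z V x y) ^ 2 ≤ Cs * growth d t ∧ GM z V x x ≤ Cs)
    {M' : ℕ} [NeZero M'] {σ t p z μ : ℝ} {v : ℝ≥0} (hσ : σ ≠ 0) (hM' : 3 ≤ M') (ht : 1 ≤ t)
    (htM : t ≤ M') (hv : (v : ℝ) = σ ^ 2) (hμ1 : 10 * t ≤ μ) (hμ2 : μ ≤ 12 * t)
    (hz : z ≤ 2 * d + 1) (hprob : gau d M' v {V | ¬ Flat z μ V} ≤ ENNReal.ofReal p)
    (s M N : ℕ) (E lam : ℝ) (c : Site d) (hE : |E - z| ≤ lam)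
    (h1 : 16 * Cs * lam * (8 * (M * s) + 3 : ℝ) ^ d ≤ 1)
    (h2 : 16 * Cs * (8 * (M * s) + 3 : ℝ) ^ d ≤ t) (h3 : 8 * (M * s) + 5 ≤ M')
    (hlog : Real.log (16 * d * (8 * (M * s) + 3 : ℝ) ^ d) ≤ s / 2)
    (hbox : box c (4 * (M * s) + 2) ⊆ box 0 N) :
    PP d (gl σ) {V | ¬ ∀ j : ℕ, 1 ≤ j → j ≤ M → ∃ y : Site d,
      (sd c y = 4 * j * s ∨ sd c y = 4 * j * s + 1) ∧ DL (box 0 N) E V c y ≤ s / 2} ≤
        ENNReal.ofReal p := by
  classical
  have hlam : 0 ≤ lam := (abs_nonneg _).trans hE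
  have hμ0 : 0 < μ := by linarith
  have hν := bddDens_gl hσ
  set f : (Site d → ℝ) → (Tor d M' → ℝ) := fun V x => V (c + rep x) with hf
  set A : Set (Site d → ℝ) := {V | (RM V (box 0 N) E).det = 0} with hA
  set B : Set (Site d → ℝ) := f ⁻¹' {U | ¬ Flat z μ U} with hB
  have pB : PP d (gl σ) B ≤ ENNReal.ofReal p := by
    have hfm : Measurable f := measurable_pi_lambda _ fun x => measurable_pi_apply _
    refine (Measure.le_map_apply hfm.aemeasurable _).trans ?_
    have h4 := H73.lawT d M' (Site d → ℝ) (PP d (gl σ)) (xi σ c) (measurable_xi σ c)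
      (map_xi hσ c) (indep_xi c) σ v hv
    have h5 : (fun (V : Site d → ℝ) (x : Tor d M') => σ * xi σ c (rep x) V) = f := by
      funext V x
      simp only [xi, hf]
      field_simp
    rw [h5] at h4
    rw [h4]
    exact hprob
  have pA : PP d (gl σ) A = 0 := by
    have h1 : Pool.Agent.Mob.H75.Loc A (box 0 N) := by
      intro V V' h
      rw [hA, Set.mem_ofPred_eq, Set.mem_ofPred_eq, RM_congr h]
    exact le_antisymm ((Pool.Agent.Mob.H75.PP_le_PL h1).trans (PL_det hν _ _ le_rfl E).le) zero_le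
  have hsub : {V : Site d → ℝ | ¬ ∀ j : ℕ, 1 ≤ j → j ≤ M → ∃ y : Site d,
      (sd c y = 4 * j * s ∨ sd c y = 4 * j * s + 1) ∧ DL (box 0 N) E V c y ≤ s / 2} ⊆ A ∪ B := by
    intro V hV
    by_contra hcon
    rw [Set.mem_union, not_or] at hcon
    obtain ⟨g1, g2⟩ := hcon
    rw [hB, Set.mem_preimage, Set.mem_ofPred_eq, not_not] at g2
    apply hV
    intro j hj hjM
    have hjr : 4 * j * s ≤ 4 * (M * s) := by
      calc 4 * j * s = 4 * (j * s) := by ring
        _ ≤ 4 * (M * s) := Nat.mul_le_mul_left _ (Nat.mul_le_mul_right _ hjM)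
    have hr0 : (0 : ℝ) ≤ ((4 * j * s : ℕ) : ℝ) := Nat.cast_nonneg _
    have hjr' : (2 * ((4 * j * s : ℕ) : ℝ) + 3) ≤ 8 * (M * s) + 3 := by
      have : ((4 * j * s : ℕ) : ℝ) ≤ ((4 * (M * s) : ℕ) : ℝ) := by exact_mod_cast hjr
      push_cast at this ⊢
      linarith
    have hjr1 : (2 * ((4 * j * s : ℕ) : ℝ) + 1) ^ d ≤ (8 * (M * s) + 3 : ℝ) ^ d :=
      pow_le_pow_left₀ (by linarith) (by linarith) d
    have hCs0 : 0 < Cs := by linarith
    have hdiag : ∀ x, GM z (fun x : Tor d M' => V (c + rep x)) x x ≤ Cs := by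
      intro x
      refine (hsum M' z t (49 / 50 * μ) (fun x : Tor d M' => V (c + rep x)) hM' ht htM hz g2.1
        g2.2.1 (by linarith) (by linarith) (fun x => ?_) (fun x => ?_) x).2
      · have := (abs_le.1 (g2.2.2 x)).1
        linarith
      · have := (abs_le.1 (g2.2.2 x)).2
        linarith
    obtain ⟨y, hy, hy2⟩ := cdf d M' z μ E Cs lam V (box 0 N) c (4 * j * s) (by omega)
      (by omega) hz hμ0 hCs0 g2 hdiag hE
      (by
        refine le_trans ?_ h1
        exact mul_le_mul_of_nonneg_left hjr1 (by positivity))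
      (by
        have h5 : 4 * Cs * (2 * ((4 * j * s : ℕ) : ℝ) + 1) ^ d ≤
            16 * Cs * (8 * (M * s) + 3 : ℝ) ^ d :=
          mul_le_mul (by linarith) hjr1 (by positivity) (by positivity)
        linarith)
      ((box_mono c (by omega)).trans hbox) g1
    refine ⟨y, hy, ?_⟩
    have hd0 : (1 : ℝ) ≤ d := by exact_mod_cast (by omega : 1 ≤ d)
    have h4 : (1 : ℝ) ≤ (16 * d * (8 * (M * s) + 3 : ℝ) ^ d) * |gr V (box 0 N) E c y| := by
      refine hy2.trans (mul_le_mul_of_nonneg_right ?_ (abs_nonneg _))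
      exact mul_le_mul_of_nonneg_left (pow_le_pow_left₀ (by linarith) hjr' _) (by positivity)
    have hK : (0 : ℝ) < 16 * d * (8 * (M * s) + 3 : ℝ) ^ d := by positivity
    have hg : 0 < |gr V (box 0 N) E c y| := by
      by_contra hc
      have h0 : |gr V (box 0 N) E c y| = 0 := le_antisymm (not_lt.1 hc) (abs_nonneg _)
      rw [h0, mul_zero] at h4
      linarith
    have h6 := Real.log_le_log one_pos h4
    rw [Real.log_one, Real.log_mul hK.ne' hg.ne'] at h6
    unfold DL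
    linarith
  refine (measure_mono hsub).trans ((measure_union_le _ _).trans ?_)
  rw [pA, zero_add]
  exact pB

theorem cpf (cdf : CdfStmt) : CpfStmt := by
  classical
  intro d hd
  obtain ⟨c0, C0, hc0, hC0, hflat⟩ := flatAll d hd
  obtain ⟨Cs, hCs, hsum⟩ := sumAll d hd
  refine ⟨c0, C0, 16 * Cs, hc0, hC0, by linarith, ?_⟩
  intro M' σ t p hσ hσ1 hM' ht htM hp hp2
  have hs : 0 < |σ| := abs_pos.2 hσ
  have : NeZero M' := ⟨by omega⟩
  set σ' : ℝ≥0 := ⟨|σ|, hs.le⟩ with hσ'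
  have hσ'r : (σ' : ℝ) = |σ| := rfl
  have hσ'0 : 0 < σ' := by
    rw [← NNReal.coe_pos, hσ'r]
    exact hs
  have hσ'1 : σ' ≤ 1 := by
    rw [← NNReal.coe_le_coe, hσ'r]
    simpa using hσ1
  obtain ⟨z, μ, hμ1, hμ2, hz, hz2, hprob⟩ := hflat M' t σ' p hM' ht htM hσ'0 hσ'1
    (by rw [hσ'r, sq_abs]; exact hp) hp2
  rw [hσ'r, sq_abs] at hz2
  refine ⟨z, hz2, ?_⟩
  intro s M N E lam c hE h1 h2 h3 hlog hbox
  exact cpf_core cdf hd hCs hsum hσ hM' ht htM (by push_cast; rw [hσ'r, sq_abs]) hμ1 hμ2 hz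
    hprob s M N E lam c hE h1 h2 h3 hlog hbox

end Pool.Agent.LE.H54W
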