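import Pool.Agent.Helper54_LEW.EdgeAll

/-!
# MP_1906c1_mp: near the band edge all states are extended, up to exponentially large scales

For the Anderson Hamiltonian `H_σ = Δ + σ ξ` on `ℤ^d`, `d ≥ 3`, with independent standard Gaussian
`ξ(x)`, at weak disorder: there is an effective band edge `Es` near `2d` such that outside an event
of probability at most `1 / R` the following holds for all `lam` in `[1/t, 1]`: every combination
`v` of eigenfunctions with energies `|E| ≥ Es - lam` (of `H_σ` on `ℤ^d` or restricted to an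
arbitrary set of sites) satisfies `|v(x)|² ≤ C lam^(d/2) ‖v‖²` for all sites `x` in the ball of
radius `R`, although boxes in that ball do have the number `lam^(d/2) |Λ|` of eigenvalues in
`[Es - lam, Es)` which is the order of magnitude for `σ = 0`, and none of size `Es` or more.

Here `t ≤ R` are restricted only by `σ² growth(d, t) log R ≤ c`, `growth = √t, 1 + log t, 1` for
`d = 3`, `d = 4`, `d ≥ 5`. In dimensions `d ≥ 5` one can take `t = R = exp(c'/σ²)`.

At the energies `|E - Es| ≤ |σ|` the rate of the exponential decay of the Green function, in the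
limit of infinite volume, is at most `C (|E - Es| + 1/t)^c` if `t ≥ 1 / |σ|`: for `d ≥ 5` at most
`exp(-c''/σ²)` at `Es`.

The proof: the landscape function `(z - σ ξ - Δ)⁻¹ 1` on a torus is shown to be constant, up to two
percent, by induction on the distance of `z` to the edge (Gaussian concentration for a Lipschitz
extension of the landscape function, and Nash's inequality for the Green function, whose constants
depend only on the flatness of the landscape function); a flat landscape function gives heat kernel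
bounds for `z - σ ξ - Δ`, hence the sup bound for spectral subspaces, and the absence of
eigenvalues above `z`. For the upper bound of the rate of decay: the flat landscape function gives
`|G(x, y)| ≥ c` between the sites of a box of radius `r` in a larger box, if `r^d ≤ c t`. If the
rate of decay is `γ`, consider `-log |G|` as a distance. A cube of side `L` has all sides at
distance `≥ c γ L`, and the distances to the faces map the cube onto a set which contains a cube of
side `c γ L` (Poincaré-Miranda); but by the bound for `|G|` the balls of radius `s / 2`, `s` of the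
order of `log(1/|σ|)`, contain a box of radius `r`, so the image is covered by `(L s / r²)^d` balls
of radius `s`, up to small errors: a contradiction unless `γ` is at most a small power of `1/r`.
-/

set_option autoImplicit false

open MeasureTheory ProbabilityTheory Filter

open scoped ENNReal Topology

noncomputable section

namespace Pool.Agent.Helper54_LEW.BandEdgeC

open Pool.Agent.Anderson Pool.Agent.Loc Pool.Agent.Helper54.Bal Pool.Agent.BED

universe u

/-- Exponential decay, at the rate `κ`, of the Green function of `H = Δ + V` in the cube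
`box 0 L`, `|x|_∞ ≤ L`, from the centre to the boundary: `E` is not an eigenvalue of the
restriction of `H` to the cube and the matrix element at `0`, `u` of the inverse of `E - H` in the
cube is at most `e^{-κ L}` for all `u` with `|u|_∞ = L`. -/
def Decays {d : ℕ} (V : Site d → ℝ) (E κ : ℝ) (L : ℕ) : Prop :=
  (RM V (box 0 L) E).det ≠ 0 ∧ ∀ u, sd 0 u = L → |gr V (box 0 L) E 0 u| ≤ Real.exp (-κ * L)

/-- The probability of decay, for `V = σ ξ`, `ξ` independent standard Gaussians. -/
def prob (d : ℕ) (σ E κ : ℝ) (L : ℕ) : ℝ≥0∞ :=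
  (Measure.infinitePi fun _ : Site d => gaussianReal 0 1)
    {ξ : Site d → ℝ | Decays (fun x => σ * ξ x) E κ L}

theorem prob_eq {d : ℕ} (σ E κ : ℝ) (L : ℕ) :
    prob d σ E κ L = Pool.Agent.LE.H93.pr d σ E κ L := by
  have hm : ∀ y : Site d, Measurable fun ξ : Site d → ℝ => ξ y := fun y => measurable_pi_apply y
  have hlaw : ∀ y : Site d, (Measure.infinitePi fun _ : Site d => gaussianReal 0 1).map
      (fun ξ => ξ y) = gaussianReal 0 1 := fun y =>
    (measurePreserving_eval_infinitePi (fun _ : Site d => gaussianReal 0 1) y).map_eq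
  have hind : iIndepFun (fun (y : Site d) (ξ : Site d → ℝ) => ξ y)
      (Measure.infinitePi fun _ : Site d => gaussianReal 0 1) :=
    iIndepFun_infinitePi (P := fun _ : Site d => gaussianReal 0 1) (X := fun _ t => t)
      (fun _ => measurable_id)
  have h := Pool.Agent.Mob.H42.map_eq_PP hm hlaw hind σ
  unfold Pool.Agent.LE.H93.pr prob
  rw [← h, Measure.map_apply (Pool.Agent.Mob.H42.measurable_W hm σ)
    (Pool.Agent.LE.H93.meas_SG L κ E 0)]
  rfl

/-- Let `d ≥ 3` and let `ξ(y)`, `y ∈ ℤ^d`, be independent standard Gaussians, `H_σ = Δ + σ ξ`. There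
are `c, C > 0` such that for all `σ ≠ 0` and all `2 ≤ t ≤ R` with `σ² growth(d, t) log R ≤ c`
(`growth(d, t) = √t` for `d = 3`, `1 + log t` for `d = 4`, `1` for `d ≥ 5`) there is a non-random
`Es` with `|Es - 2d| ≤ C (σ² + 1/t)` and an event `G` with `P(Gᶜ) ≤ 1/R` on which:

* for `1/t ≤ lam ≤ 1` and every set `S` of sites, every finite combination `v = ∑_{E ∈ J} u_E` of
  eigenfunctions `u_E ∈ ℓ²` of the restriction of `H_σ` to `S` with eigenvalues `|E| ≥ Es - lam`
  satisfies `|v(x)|² ≤ C lam^(d/2) ‖v‖²` for all `|x|_∞ ≤ R`;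
* in every box contained in `|x|_∞ ≤ R` all eigenvalues of the restriction of `H_σ` are less than
  `Es` in absolute value, and if the radius `L` of the box satisfies `lam L² ≥ C`, at least
  `C⁻¹ lam^(d/2) (2L+1)^d` of them are `≥ Es - lam`, for `1/t ≤ lam ≤ 1`.

Moreover, for the same `Es`, if `t ≥ 1 / |σ|`: for all `|E - Es| ≤ |σ|` and
`κ > C (|E - Es| + 1/t)^c` the probability that the Green function at the energy `E` of the cube
`|x|_∞ ≤ L` decays at the rate `κ` (is at most `e^{-κ L}` from `0` to the boundary) tends to `0`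
as `L → ∞`. -/
theorem result (d : ℕ) (hd : 3 ≤ d) :
    ∃ c C : ℝ, 0 < c ∧ 0 < C ∧ ∀ σ : ℝ, σ ≠ 0 → ∀ t R : ℝ, 2 ≤ t → t ≤ R →
      σ ^ 2 * growth d t * Real.log R ≤ c →
      ∃ Es : ℝ, |Es - 2 * d| ≤ C * (σ ^ 2 + 1 / t) ∧
        (∀ (Ω : Type u) [MeasurableSpace Ω] (P : Measure Ω) [IsProbabilityMeasure P]
          (ξ : Site d → Ω → ℝ), (∀ y, Measurable (ξ y)) →
          (∀ y, P.map (ξ y) = gaussianReal 0 1) → iIndepFun ξ P →
          ∃ G : Set Ω, MeasurableSet G ∧ P Gᶜ ≤ ENNReal.ofReal (1 / R) ∧ ∀ ω ∈ G,
            (∀ lam : ℝ, 1 / t ≤ lam → lam ≤ 1 →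
              ∀ (S : Set (Site d)) (J : Finset ℝ) (u : ℝ → L2 d), (∀ E ∈ J, Es - lam ≤ |E|) →
                (∀ E ∈ J, IsEigenOn S (fun y => σ * ξ y ω) E (u E)) →
                ∀ x : Site d, (∀ i, |(x i : ℝ)| ≤ R) →
                  ‖(∑ E ∈ J, u E : L2 d) x‖ ^ 2 ≤
                    C * lam ^ ((d : ℝ) / 2) * ‖(∑ E ∈ J, u E : L2 d)‖ ^ 2) ∧
            ∀ (x₀ : Site d) (L : ℕ), (∀ i, |(x₀ i : ℝ)| + L ≤ R) →
              ∀ hH : (HM (fun y => σ * ξ y ω) (box x₀ L)).IsHermitian,
                (∀ i, |hH.eigenvalues i| < Es) ∧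
                ∀ lam : ℝ, 1 / t ≤ lam → lam ≤ 1 → C ≤ lam * (L : ℝ) ^ 2 →
                  lam ^ ((d : ℝ) / 2) * (2 * (L : ℝ) + 1) ^ d ≤
                    C * ((Finset.univ.filter fun i => Es - lam ≤ hH.eigenvalues i).card : ℝ)) ∧
        (1 / |σ| ≤ t → ∀ E κ : ℝ, |E - Es| ≤ |σ| → C * (|E - Es| + 1 / t) ^ c < κ →
          Tendsto (prob d σ E κ) atTop (𝓝 0)) := by
  obtain ⟨c, C, hc, hC, h⟩ := Pool.Agent.LE.H54W.edgeAll.{u} d hd
  refine ⟨c, C, hc, hC, ?_⟩
  intro σ hσ t R ht htR hcond
  obtain ⟨Es, h1, h2, h3⟩ := h σ hσ t R ht htR hcond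
  refine ⟨Es, h1, h2, fun hσt E κ hE hκ => ?_⟩
  have h4 := h3 hσt E κ hE hκ
  have h5 : prob d σ E κ = Pool.Agent.LE.H93.pr d σ E κ := by
    funext L
    exact prob_eq σ E κ L
  rw [h5]
  exact h4

end Pool.Agent.Helper54_LEW.BandEdgeC
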