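import Pool.Agent.LE.StmtsW
import Pool.Agent.Helper54_LE.FMN

/-!
# CPR: the probability of conduction
-/

set_option autoImplicit false
set_option linter.unusedSectionVars false

open scoped Topology ENNReal
open MeasureTheory Filter ProbabilityTheory

noncomputable section

namespace Pool.Agent.LE.H54W

open Pool.Agent.Anderson Pool.Agent.Loc Pool.Agent.Mob Pool.Agent.Helper54.Bal Pool.Agent.LY
  Pool.Agent.LE.H54

variable {d : ℕ}

/-- the tail of the standard normal law -/
theorem gauss_tail (w : ℝ) :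
    (gaussianReal 0 1) {t : ℝ | w < |t|} ≤ ENNReal.ofReal (4 * Real.exp (-w)) := by
  have hm : ∀ t : ℝ, mgf id (gaussianReal 0 1) t = Real.exp (t ^ 2 / 2) := by
    intro t
    rw [mgf_id_gaussianReal]
    simp
  have h1 : (gaussianReal 0 1).real {t : ℝ | w ≤ id t} ≤ 2 * Real.exp (-w) := by
    have h2 := measure_ge_le_exp_mul_mgf (X := id) (μ := gaussianReal 0 1) w (zero_le_one' ℝ)
      (by simpa using integrable_exp_mul_gaussianReal (μ := 0) (v := 1) 1)
    rw [hm] at h2
    refine h2.trans ?_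
    have h3 : Real.exp (1 ^ 2 / 2 : ℝ) ≤ 2 := by
      have h4 : Real.exp (1 / 2 : ℝ) ^ 2 ≤ 2 ^ 2 := by
        rw [← Real.exp_nat_mul]
        have := Real.exp_one_lt_d9
        norm_num
        linarith
      have h5 := abs_le_of_sq_le_sq' h4 (by norm_num)
      norm_num
      simpa using h5.2
    have h6 : 0 < Real.exp (-w) := Real.exp_pos _
    calc Real.exp (-1 * w) * Real.exp (1 ^ 2 / 2) ≤ Real.exp (-1 * w) * 2 :=
          mul_le_mul_of_nonneg_left h3 (Real.exp_pos _).le
      _ = 2 * Real.exp (-w) := by rw [neg_one_mul]; ring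
  have h1' : (gaussianReal 0 1).real {t : ℝ | id t ≤ -w} ≤ 2 * Real.exp (-w) := by
    have h2 := measure_le_le_exp_mul_mgf (X := id) (μ := gaussianReal 0 1) (-w)
      (t := -1) (by norm_num)
      (by simpa using integrable_exp_mul_gaussianReal (μ := 0) (v := 1) (-1))
    rw [hm] at h2
    refine h2.trans ?_
    have h3 : Real.exp ((-1) ^ 2 / 2 : ℝ) ≤ 2 := by
      have h4 : Real.exp (1 / 2 : ℝ) ^ 2 ≤ 2 ^ 2 := by
        rw [← Real.exp_nat_mul]
        have := Real.exp_one_lt_d9
        norm_num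
        linarith
      have h5 := abs_le_of_sq_le_sq' h4 (by norm_num)
      norm_num
      simpa using h5.2
    calc Real.exp (-(-1) * -w) * Real.exp ((-1) ^ 2 / 2) ≤ Real.exp (-(-1) * -w) * 2 :=
          mul_le_mul_of_nonneg_left h3 (Real.exp_pos _).le
      _ = 2 * Real.exp (-w) := by rw [neg_neg, one_mul]; ring
  have hsub : {t : ℝ | w < |t|} ⊆ {t : ℝ | w ≤ id t} ∪ {t : ℝ | id t ≤ -w} := by
    intro t ht
    rw [Set.mem_ofPred_eq, lt_abs] at ht
    rcases ht with h | h
    · exact Or.inl h.le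
    · right
      rw [Set.mem_ofPred_eq, id]
      linarith
  refine (measure_mono hsub).trans ((measure_union_le _ _).trans ?_)
  rw [← ofReal_measureReal, ← ofReal_measureReal, ← ENNReal.ofReal_add measureReal_nonneg
    measureReal_nonneg]
  apply ENNReal.ofReal_le_ofReal
  linarith

/-- one site -/
theorem site_tail {σ : ℝ} (hσ : σ ≠ 0) (v : ℝ) (x : Site d) :
    PP d (gl σ) {V | v < |V x|} ≤ ENNReal.ofReal (4 * Real.exp (-(v / |σ|))) := by
  have hs : 0 < |σ| := abs_pos.2 hσ
  have hmeas : MeasurableSet {t : ℝ | v < |t|} := measurableSet_lt measurable_const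
    measurable_id.abs
  have h1 : PP d (gl σ) {V | v < |V x|} = gl σ {t : ℝ | v < |t|} := by
    have h2 : MeasurePreserving (fun V : Site d → ℝ => V x) (PP d (gl σ)) (gl σ) := by
      unfold PP
      exact measurePreserving_eval_infinitePi (fun _ : Site d => gl σ) x
    rw [← h2.measure_preimage hmeas.nullMeasurableSet]
    rfl
  rw [h1]
  unfold gl
  rw [Measure.map_apply (by fun_prop) hmeas]
  have h3 : (fun t : ℝ => σ * t) ⁻¹' {t : ℝ | v < |t|} = {t : ℝ | v / |σ| < |t|} := by
    ext t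
    simp only [Set.mem_preimage, Set.mem_ofPred_eq, abs_mul]
    rw [div_lt_iff₀ hs, mul_comm]
  rw [h3]
  exact gauss_tail _

theorem cpr (cdd : CddStmt) : CprStmt := by
  classical
  intro d s M N σ E v c hd hσ hE hv hsm hlog hbox
  have hν := bddDens_gl hσ
  set r : ℕ := 4 * (M * s) with hr
  set A : Set (Site d → ℝ) := {V | (RM V (box 0 N) E).det = 0} with hA
  set B : Set (Site d → ℝ) := ⋃ x ∈ box c r, {V | v < |V x|} with hB
  have hsub : {V : Site d → ℝ | ¬ ∀ j : ℕ, 1 ≤ j → j ≤ M → ∃ y : Site d,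
      (sd c y = 4 * j * s ∨ sd c y = 4 * j * s + 1) ∧ DL (box 0 N) E V c y ≤ s / 2} ⊆ A ∪ B := by
    intro V hV
    by_contra hcon
    rw [Set.mem_union, not_or] at hcon
    obtain ⟨h1, h2⟩ := hcon
    apply hV
    intro j hj hjM
    have hjr : 4 * j * s ≤ r := by
      rw [hr]
      calc 4 * j * s = 4 * (j * s) := by ring
        _ ≤ 4 * (M * s) := Nat.mul_le_mul_left _ (Nat.mul_le_mul_right _ hjM)
    have hVx : ∀ x ∈ box c r, |V x| ≤ v := by
      intro x hx
      by_contra hc
      apply h2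
      rw [hB]
      simp only [Set.mem_iUnion, exists_prop]
      exact ⟨x, hx, not_le.1 hc⟩
    have hjr' : (2 * ((4 * j * s : ℕ) : ℝ) + 3) ≤ 8 * (M * s) + 3 := by
      have : ((4 * j * s : ℕ) : ℝ) ≤ (r : ℝ) := by exact_mod_cast hjr
      have e : (r : ℝ) = 4 * (M * s) := by rw [hr]; push_cast; ring
      linarith
    have hpos : (1 : ℝ) ≤ 2 * ((4 * j * s : ℕ) : ℝ) + 3 := by
      have : (0 : ℝ) ≤ ((4 * j * s : ℕ) : ℝ) := Nat.cast_nonneg _
      linarith
    obtain ⟨y, hy, hy2⟩ := cdd d E v V (box 0 N) c (4 * j * s) hd hE hv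
      (le_trans (mul_le_mul_of_nonneg_left (pow_le_pow_left₀ (by linarith) hjr' _)
        (by positivity)) hsm)
      (fun x hx => hVx x (box_mono c hjr hx)) ((box_mono c (by omega)).trans hbox) h1
    refine ⟨y, hy, ?_⟩
    have hd0 : (1 : ℝ) ≤ d := by exact_mod_cast hd
    have h3 : (1 : ℝ) ≤ (16 * d * (8 * (M * s) + 3 : ℝ) ^ d) * |gr V (box 0 N) E c y| := by
      refine hy2.trans (mul_le_mul_of_nonneg_right ?_ (abs_nonneg _))
      exact mul_le_mul_of_nonneg_left (pow_le_pow_left₀ (by linarith) hjr' _) (by positivity)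
    have hK : (0 : ℝ) < 16 * d * (8 * (M * s) + 3 : ℝ) ^ d := by positivity
    have hg : 0 < |gr V (box 0 N) E c y| := by
      by_contra hc
      have h0 : |gr V (box 0 N) E c y| = 0 := le_antisymm (not_lt.1 hc) (abs_nonneg _)
      rw [h0, mul_zero] at h3
      linarith
    have h4 := Real.log_le_log one_pos h3
    rw [Real.log_one, Real.log_mul hK.ne' hg.ne'] at h4
    unfold DL
    linarith
  have p1 : PP d (gl σ) A = 0 := by
    have h1 : Pool.Agent.Mob.H75.Loc A (box 0 N) := by
      intro V V' h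
      rw [hA, Set.mem_ofPred_eq, Set.mem_ofPred_eq, RM_congr h]
    exact le_antisymm ((Pool.Agent.Mob.H75.PP_le_PL h1).trans (PL_det hν _ _ le_rfl E).le) zero_le
  have p2 : PP d (gl σ) B ≤ ((box c r).card : ℝ≥0∞) *
      ENNReal.ofReal (4 * Real.exp (-(v / |σ|))) := by
    refine (measure_biUnion_finset_le _ _).trans ?_
    refine (Finset.sum_le_sum fun x _ => site_tail hσ v x).trans (le_of_eq ?_)
    rw [Finset.sum_const, nsmul_eq_mul]
  refine (measure_mono hsub).trans ((measure_union_le _ _).trans ?_)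
  rw [p1, zero_add]
  refine p2.trans ?_
  rw [card_box, ← ENNReal.ofReal_natCast, ← ENNReal.ofReal_mul (by positivity)]
  apply ENNReal.ofReal_le_ofReal
  apply mul_le_mul_of_nonneg_right _ (by positivity)
  push_cast
  apply pow_le_pow_left₀ (by positivity)
  have e : (r : ℝ) = 4 * (M * s) := by rw [hr]; push_cast; ring
  rw [e]
  linarith

end Pool.Agent.LE.H54W
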