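import Pool.Agent.Helper54_BED.Main

/-!
# BED assembly: the same theorem, with the flatness at the energy `Es` in the conclusion
-/

set_option autoImplicit false

open MeasureTheory ProbabilityTheory

open scoped ENNReal NNReal BigOperators

noncomputable section

namespace Pool.Agent.BED

open Matrix Pool.Agent.Anderson Pool.Agent.Loc

universe u

/-- the landscape function at the energy `z` is flat with large probability on a torus of size at
least `4 R + 3` -/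
def ZOK (d : ℕ) (σ t R z : ℝ) : Prop :=
  ∃ (M : ℕ) (_ : NeZero M) (μ p : ℝ) (v : ℝ≥0), (v : ℝ) = σ ^ 2 ∧ 3 ≤ M ∧ 4 * R + 3 ≤ M ∧ t ≤ M ∧
    10 * t ≤ μ ∧ μ ≤ 12 * t ∧ z ≤ 2 * d + 1 ∧ p ≤ 1 / (2 * R ^ 2) ∧
    gau d M v {V | ¬ Flat z μ V} ≤ ENNReal.ofReal p

theorem main_ofZ (hFlat : FlatStmt) (hTrans : TransStmt) (hOrth : OrthStmt) (hCount : CountStmt)
    (hEdge : EdgeStmt) (hLaw : LawStmt.{u}) (d : ℕ) (hd : 3 ≤ d) :
    ∃ c C : ℝ, 0 < c ∧ 0 < C ∧ ∀ σ : ℝ, σ ≠ 0 → ∀ t R : ℝ, 2 ≤ t → t ≤ R →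
      σ ^ 2 * growth d t * Real.log R ≤ c →
      ∃ Es : ℝ, |Es - 2 * d| ≤ C * (σ ^ 2 + 1 / t) ∧ ZOK d σ t R Es ∧
        ∀ (Ω : Type u) [MeasurableSpace Ω] (P : Measure Ω) [IsProbabilityMeasure P]
          (ξ : Site d → Ω → ℝ), (∀ y, Measurable (ξ y)) →
          (∀ y, P.map (ξ y) = gaussianReal 0 1) → iIndepFun ξ P →
          ∃ G : Set Ω, MeasurableSet G ∧ P Gᶜ ≤ ENNReal.ofReal (1 / R) ∧ ∀ ω ∈ G,
            (∀ lam : ℝ, 1 / t ≤ lam → lam ≤ 1 →
              ∀ (S : Set (Site d)) (J : Finset ℝ) (u : ℝ → L2 d), (∀ E ∈ J, Es - lam ≤ |E|) →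
                (∀ E ∈ J, IsEigenOn S (fun y => σ * ξ y ω) E (u E)) →
                ∀ x : Site d, (∀ i, |(x i : ℝ)| ≤ R) →
                  ‖(∑ E ∈ J, u E : L2 d) x‖ ^ 2 ≤
                    C * lam ^ ((d : ℝ) / 2) * ‖(∑ E ∈ J, u E : L2 d)‖ ^ 2) ∧
            ∀ (x₀ : Site d) (L : ℕ), (∀ i, |(x₀ i : ℝ)| + L ≤ R) →
              ∀ hH : (HM (fun y => σ * ξ y ω) (box x₀ L)).IsHermitian,
                (∀ i, |hH.eigenvalues i| < Es) ∧
                ∀ lam : ℝ, 1 / t ≤ lam → lam ≤ 1 → C ≤ lam * (L : ℝ) ^ 2 →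
                  lam ^ ((d : ℝ) / 2) * (2 * (L : ℝ) + 1) ^ d ≤
                    C * ((Finset.univ.filter fun i => Es - lam ≤ hH.eigenvalues i).card : ℝ) := by
  obtain ⟨c0, C0, hc0, hC0, hF⟩ := hFlat d hd
  obtain ⟨Cc, hCc, hCnt⟩ := hCount d (by omega)
  obtain ⟨c, hc, hc2, hprob⟩ := prob_small d hc0 hC0
  have hKH := KH_pos d (by omega)
  refine ⟨c, 2 * C0 + 6 * KH d + Cc, hc, by positivity, ?_⟩
  intro σ hσ t R ht htR hcond
  set C := 2 * C0 + 6 * KH d + Cc with hC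
  have hR : 2 ≤ R := by linarith
  have hR0 : 0 < R := by linarith
  have ht0 : 0 < t := by linarith
  set r : ℕ := ⌈R⌉₊ with hr
  have hRr : R ≤ r := Nat.le_ceil R
  have hrR : (r : ℝ) < R + 1 := Nat.ceil_lt_add_one (by linarith)
  have hr1 : 1 ≤ r := by
    have : (1:ℝ) ≤ r := by linarith
    exact_mod_cast this
  set M : ℕ := 4 * r + 3 with hM
  have : NeZero M := ⟨by omega⟩
  have hMR : (M : ℝ) ≤ 8 * R := by
    rw [hM]; push_cast; linarith
  have htM : t ≤ M := by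
    rw [hM]; push_cast; linarith
  have hg := one_le_growth d (t := t) (by linarith)
  have hσ2 : 0 < σ ^ 2 := by positivity
  have hlogR : (0.69 : ℝ) ≤ Real.log R := by
    have h1 := Real.log_two_gt_d9
    have h2 : Real.log 2 ≤ Real.log R := Real.log_le_log (by norm_num) hR
    linarith
  have hσ1 : σ ^ 2 ≤ 1 := by
    have h1 : σ ^ 2 * 1 * 0.69 ≤ σ ^ 2 * growth d t * Real.log R := by gcongr
    nlinarith
  -- the disorder as a nonnegative real
  set s : ℝ≥0 := ⟨|σ|, abs_nonneg σ⟩ with hs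
  have hsσ : (s : ℝ) ^ 2 = σ ^ 2 := by
    rw [hs]; exact sq_abs σ
  have hs0 : 0 < s := by
    rw [← NNReal.coe_pos]; exact abs_pos.2 hσ
  have hs1 : s ≤ 1 := by
    rw [← NNReal.coe_le_coe]
    exact abs_le_one_iff_mul_self_le_one.2 (by nlinarith)
  set p : ℝ := C0 * (1 + Real.log t) * (M : ℝ) ^ d *
    Real.exp (-c0 / ((s : ℝ) ^ 2 * growth d t)) with hp
  have hpR : p ≤ 1 / (2 * R ^ 2) := by
    rw [hp, hsσ]
    exact hprob σ t R M hσ ht htR hMR hcond
  have hp0 : 0 ≤ p := by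
    have := Real.log_nonneg (x := t) (by linarith)
    positivity
  have hp2 : p ≤ 1 / 2 := by
    refine hpR.trans (one_div_le_one_div_of_le (by norm_num) ?_)
    nlinarith
  obtain ⟨z, μ, hμ1, hμ2, hz, hzest, hmeas⟩ := hF M t s p (by omega) (by linarith) htM hs0 hs1
    rfl hp2
  have hμ0 : 0 < μ := by linarith
  refine ⟨z, ?_, ⟨M, inferInstance, μ, p, s ^ 2, by push_cast; exact hsσ, by omega,
    (by rw [hM]; push_cast; linarith), htM, hμ1, hμ2, hz, hpR, hmeas⟩, ?_⟩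
  · refine hzest.trans ?_
    rw [hsσ]
    have h1 : Real.sqrt p ≤ 1 / t := by
      rw [Real.sqrt_le_left (by positivity)]
      refine hpR.trans ?_
      rw [div_pow, one_pow]
      refine one_div_le_one_div_of_le (by positivity) ?_
      nlinarith
    have h2 : 0 ≤ 1 / t := by positivity
    rw [hC]
    nlinarith [mul_nonneg hKH.le (add_nonneg hσ2.le h2), mul_nonneg hCc.le (add_nonneg hσ2.le h2),
      mul_nonneg hC0.le hσ2.le, mul_nonneg hC0.le h2]
  intro Ω _ P _ ξ hm hlaw hind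
  set Vp : Ω → Tor d M → ℝ := fun ω x => σ * ξ (rep x) ω with hVp
  set Vm : Ω → Tor d M → ℝ := fun ω x => -σ * ξ (rep x) ω with hVm
  have hvv : ((s ^ 2 : ℝ≥0) : ℝ) = σ ^ 2 := by rw [← hsσ]; push_cast; rfl
  have hlp := hLaw d M Ω P ξ hm hlaw hind σ (s ^ 2) hvv
  have hlm := hLaw d M Ω P ξ hm hlaw hind (-σ) (s ^ 2) (by rw [hvv]; ring)
  set Bad : Set Ω := {ω | ¬ Flat z μ (Vp ω)} ∪ {ω | ¬ Flat z μ (Vm ω)} with hBad
  have hmp : Measurable Vp := measurable_pi_lambda _ fun x => (hm (rep x)).const_mul σ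
  have hmm : Measurable Vm := measurable_pi_lambda _ fun x => (hm (rep x)).const_mul (-σ)
  have hBadP : P Bad ≤ ENNReal.ofReal (1 / R) := by
    have h1 : P {ω | ¬ Flat z μ (Vp ω)} ≤ ENNReal.ofReal p := by
      have h2 := Measure.le_map_apply (μ := P) hmp.aemeasurable {V | ¬ Flat z μ V}
      rw [show P.map Vp = gau d M (s ^ 2) from hlp] at h2
      exact h2.trans hmeas
    have h3 : P {ω | ¬ Flat z μ (Vm ω)} ≤ ENNReal.ofReal p := by
      have h2 := Measure.le_map_apply (μ := P) hmm.aemeasurable {V | ¬ Flat z μ V}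
      rw [show P.map Vm = gau d M (s ^ 2) from hlm] at h2
      exact h2.trans hmeas
    refine (measure_union_le _ _).trans ((add_le_add h1 h3).trans ?_)
    rw [← ENNReal.ofReal_add hp0 hp0]
    refine ENNReal.ofReal_le_ofReal ?_
    have h4 : 1 / (2 * R ^ 2) = (1 / R) * (1 / R) / 2 := by field_simp
    have h5 : 1 / R ≤ 1 := by
      rw [div_le_one hR0]; linarith
    have h6 : 0 < 1 / R := by positivity
    nlinarith
  refine ⟨(toMeasurable P Bad)ᶜ, (measurableSet_toMeasurable _ _).compl, ?_, ?_⟩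
  · rw [compl_compl, measure_toMeasurable]; exact hBadP
  intro ω hω
  have hωB : ω ∉ Bad := fun h => hω (subset_toMeasurable P Bad h)
  rw [hBad, Set.mem_union, not_or] at hωB
  have hfp : Flat z μ (fun x : Tor d M => (fun y => σ * ξ y ω) (rep x)) := by
    by_contra h; exact hωB.1 h
  have hfm : Flat z μ (fun x : Tor d M => - (fun y => σ * ξ y ω) (rep x)) := by
    have h1 : Flat z μ (Vm ω) := by
      by_contra h; exact hωB.2 h
    have e : (fun x : Tor d M => - (fun y => σ * ξ y ω) (rep x)) = Vm ω := by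
      funext x; simp [hVm]
    rw [e]; exact h1
  constructor
  · intro lam hl1 hl2 S J u hJ hu x hx
    have hl : 1 / (r : ℝ) ≤ lam :=
      (one_div_le_one_div_of_le ht0 (htR.trans hRr)).trans hl1
    have hx' : ∀ i, |x i| ≤ r := by
      intro i
      have h1 : |(x i : ℝ)| ≤ (r : ℝ) := (hx i).trans hRr
      exact_mod_cast h1
    refine (both hTrans hOrth (by omega) hr1 le_rfl hμ0 hz hfp hfm hl hl2 S J u hJ hu x hx').trans ?_
    have h1 : 0 ≤ lam ^ ((d : ℝ) / 2) := Real.rpow_nonneg (by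
      have : 0 < 1 / t := by positivity
      linarith) _
    have h2 : 6 * KH d ≤ C := by rw [hC]; linarith
    have h3 : 0 ≤ ‖(∑ E ∈ J, u E : L2 d)‖ ^ 2 := by positivity
    gcongr
  · intro x₀ L hL hH
    have hL' : ∀ i, |x₀ i| + (L : ℤ) ≤ r := by
      intro i
      have h1 : |(x₀ i : ℝ)| + L ≤ (r : ℝ) := (hL i).trans hRr
      exact_mod_cast h1
    obtain ⟨he1, he2⟩ := hEdge d M (by omega) r le_rfl z μ (fun y => σ * ξ y ω) hμ0 x₀ L hL' hH
    refine ⟨fun i => abs_lt.2 ⟨he2 hfm i, he1 hfp i⟩, ?_⟩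
    intro lam hl1 hl2 hlL
    have h10 : 10 / μ ≤ lam := by
      refine le_trans ?_ hl1
      rw [div_le_div_iff₀ hμ0 ht0]
      linarith
    have h3 := hCnt M r le_rfl z μ (fun y => σ * ξ y ω) hμ0 hfp x₀ L hL' hH lam h10 hl2
      (by rw [hC] at hlL; linarith)
    refine h3.trans ?_
    have h4 : Cc ≤ C := by rw [hC]; linarith
    gcongr

end Pool.Agent.BED
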