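import Pool.Agent.Helper54_LEW.CPF
import Pool.Agent.Helper54_LEW.MainZ

/-!
# WBE for a given energy `z` with a flat landscape function (after `Helper93_LEW/WBE.lean`)
-/

set_option autoImplicit false

open MeasureTheory ProbabilityTheory Function Filter

open scoped ENNReal BigOperators Topology

noncomputable section

namespace Pool.Agent.LE.H54W

open Pool.Agent.Anderson Pool.Agent.Loc Pool.Agent.Mob Pool.Agent.Helper54.Bal Pool.Agent.BED

theorem wbeZ (crt : CrtStmt) (osc : OscBStmt) (cdf : CdfStmt) (nux : NuxStmt) (inf : InfStmt)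
    (d : ℕ) (hd3 : 3 ≤ d) (C0 : ℝ) (hC0 : 0 < C0) :
    ∃ c C : ℝ, 0 < c ∧ 0 < C ∧ ∀ σ t R z : ℝ, σ ≠ 0 → |σ| ≤ c → 1 / |σ| ≤ t → t ≤ R →
      |z - 2 * d| ≤ C0 * (σ ^ 2 + 1 / t) → ZOK d σ t R z →
      ∀ E g : ℝ, |E - z| ≤ |σ| → LyaAt d σ E g → g ≤ C * (|E - z| + 1 / t) ^ c := by
  have hd : 1 ≤ d := by omega
  have hdR : (0 : ℝ) < d := by exact_mod_cast (by omega : 0 < d)
  obtain ⟨A, hA, hosc⟩ := osc d (2 * d + 2) hd (by positivity)
  obtain ⟨Cs, hCs, hsum⟩ := sumAll d hd3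
  obtain ⟨q, cN, hdq, hcN, hN⟩ := nux d A (16 * Cs) hd hA (by linarith)
  obtain ⟨C', hC', hosc'⟩ := hosc q
  obtain ⟨CN, hCN, hNN⟩ := hN C' hC'
  obtain ⟨c, hcdef⟩ : ∃ c : ℝ, c = min cN (min (1 / (2 * CN)) (1 / (2 * C0 + 11))) := ⟨_, rfl⟩
  have hc : 0 < c := by rw [hcdef]; positivity
  have hc1 : c ≤ cN := by
    rw [hcdef]; exact min_le_left _ _
  have hc3 : 2 * CN * c ≤ 1 := by
    have : c ≤ 1 / (2 * CN) := by
      rw [hcdef]; exact (min_le_right _ _).trans (min_le_left _ _)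
    rw [le_div_iff₀ (by positivity)] at this
    linarith
  have hc5 : (2 * C0 + 11) * c ≤ 1 := by
    have : c ≤ 1 / (2 * C0 + 11) := by
      rw [hcdef]; exact (min_le_right _ _).trans (min_le_right _ _)
    rw [le_div_iff₀ (by positivity)] at this
    linarith
  have hc6 : c ≤ 1 := by nlinarith
  refine ⟨c, 2 * C0 + 2 * CN, hc, by positivity, ?_⟩
  intro σ t R z hσ hσc hσt htR hz2 hZ
  obtain ⟨M', hM0', μ, p0, v, hv, hM3, hMR, hM1, hμ1, hμ2, hzd, hpR, hmeas⟩ := hZ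
  have hσ0 : 0 < |σ| := abs_pos.2 hσ
  have hσ1 : |σ| ≤ 1 := hσc.trans hc6
  have ht1c : 1 / c ≤ t := (one_div_le_one_div_of_le hσ0 hσc).trans hσt
  have hct : 1 ≤ c * t := by
    rw [div_le_iff₀ hc] at ht1c
    linarith
  have ht0 : 0 < t := lt_of_lt_of_le (by positivity) hσt
  have ht11 : 11 ≤ t := by
    have h1 : (2 * C0 + 11) * (c * t) ≤ 1 * t := by
      rw [← mul_assoc]
      exact mul_le_mul_of_nonneg_right hc5 ht0.le
    have h2 : (2 * C0 + 11) * 1 ≤ (2 * C0 + 11) * (c * t) :=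
      mul_le_mul_of_nonneg_left hct (by positivity)
    linarith
  obtain ⟨p, hp⟩ : ∃ p : ℝ, p = 1 / t ^ 2 := ⟨_, rfl⟩
  have hp0 : 0 < p := by rw [hp]; positivity
  have hpt : p ≤ 1 / t ^ 2 := hp.le
  have hp0p : p0 ≤ p := by
    refine hpR.trans ?_
    rw [hp]
    apply one_div_le_one_div_of_le (by positivity)
    nlinarith
  have hpt1 : p ≤ 1 / t := by
    refine hpt.trans ?_
    rw [div_le_div_iff₀ (by positivity) (by positivity)]
    nlinarith
  have hcond := cpf_core cdf hd3 hCs hsum hσ hM3 (by linarith : (1 : ℝ) ≤ t) hM1 hv hμ1 hμ2 hzd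
    (hmeas.trans (ENNReal.ofReal_le_ofReal hp0p))
  have h1t : 1 / t ≤ |σ| := by
    rw [div_le_iff₀ ht0]
    rw [div_le_iff₀ hσ0] at hσt
    linarith
  intro E g hE hg
  obtain ⟨lam, hlam⟩ : ∃ lam : ℝ, lam = |E - z| + 1 / t := ⟨_, rfl⟩
  rw [← hlam]
  have h1t0 : 0 < 1 / t := by positivity
  have hlam0 : 0 < lam := by
    rw [hlam]
    have := abs_nonneg (E - z)
    linarith
  have hlam2 : lam ≤ 2 * |σ| := by rw [hlam]; linarith
  have hlamt : 1 / t ≤ lam := by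
    rw [hlam]
    have := abs_nonneg (E - z)
    linarith
  have hlam1 : lam ≤ 1 := by
    have h1 : (2 * CN) * c ≤ 1 := by linarith
    have h2 : 2 * c ≤ 2 * CN * c := by nlinarith
    linarith
  have hzE : |E| ≤ 2 * d + 2 := by
    have h1 : |z - 2 * d| ≤ 1 := by
      refine hz2.trans ?_
      have h2 : σ ^ 2 ≤ |σ| := by
        rw [← sq_abs]
        nlinarith
      have h3 : σ ^ 2 + 1 / t ≤ 2 * c := by linarith
      calc C0 * (σ ^ 2 + 1 / t) ≤ C0 * (2 * c) :=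
            mul_le_mul_of_nonneg_left h3 (by positivity)
        _ ≤ 1 := by nlinarith
    have h2 : |E| ≤ |E - z| + |z - 2 * d| + 2 * d := by
      have h3 : E = (E - z) + (z - 2 * d) + 2 * d := by ring
      calc |E| = |(E - z) + (z - 2 * d) + 2 * d| := by rw [← h3]
        _ ≤ |(E - z) + (z - 2 * d)| + |(2 * d : ℝ)| := abs_add_le _ _
        _ ≤ |E - z| + |z - 2 * d| + 2 * d := by
            have := abs_add_le (E - z) (z - 2 * d)
            rw [abs_of_nonneg (by positivity : (0 : ℝ) ≤ 2 * d)]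
            linarith
    linarith
  obtain ⟨X, hX⟩ : ∃ X : ℝ, X = 1 / lam := ⟨_, rfl⟩
  have hX0 : 0 < X := by rw [hX]; positivity
  have hXl : 1 / X = lam := by rw [hX, one_div_one_div]
  have hXC : CN ≤ X := by
    rw [hX, le_div_iff₀ hlam0]
    have : CN * lam ≤ CN * (2 * c) := mul_le_mul_of_nonneg_left (by linarith) (by linarith)
    linarith
  have hXσ : 1 / |σ| ≤ 2 * X := by
    rw [hX, div_le_iff₀ hσ0]
    have : 2 * (1 / lam) * |σ| = 2 * |σ| / lam := by ring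
    rw [this, le_div_iff₀ hlam0, one_mul]
    exact hlam2
  have hXt : X ≤ t := by
    rw [hX, div_le_iff₀ hlam0]
    rw [div_le_iff₀ ht0] at hlamt
    linarith
  by_contra hcon
  push Not at hcon
  obtain ⟨κ, hκ⟩ : ∃ κ : ℝ, κ = CN * X ^ (-cN) := ⟨_, rfl⟩
  have hXp : X ^ (-cN) = lam ^ cN := by
    rw [← hXl, one_div, Real.inv_rpow hX0.le, Real.rpow_neg hX0.le]
  have hκ0 : 0 < κ := by
    rw [hκ]
    have : 0 < X ^ (-cN) := Real.rpow_pos_of_pos hX0 _
    positivity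
  have hκg : 2 * κ < g := by
    refine lt_of_le_of_lt ?_ hcon
    rw [hκ, hXp]
    have h1 : lam ^ cN ≤ lam ^ c := Real.rpow_le_rpow_of_exponent_ge hlam0 hlam1 hc1
    have h2 : 0 < lam ^ c := Real.rpow_pos_of_pos hlam0 _
    have h3 : CN * lam ^ cN ≤ CN * lam ^ c := mul_le_mul_of_nonneg_left h1 (by linarith)
    have h4 : 0 ≤ 2 * C0 * lam ^ c := by positivity
    linarith
  obtain ⟨s, M, cs, hs, hM, hcs, hr1, hr2, hr3, hr4⟩ := hNN σ κ X p hσ hσ1 hXC hXσ hp0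
    (by rw [hXl]; exact hpt1.trans hlamt) (by rw [hκ])
  have hs0 : (0 : ℝ) < s := by exact_mod_cast (by omega : 0 < s)
  have hcs0 : 0 < cs := by linarith
  have hy0 : 0 < C' * |σ| ^ (-A) * (s : ℝ) ^ (q + d + 1) / (cs * s) ^ q := by
    have : 0 < |σ| ^ (-A) := Real.rpow_pos_of_pos hσ0 _
    positivity
  obtain ⟨L₀, hL₀⟩ := crt d s M q σ E κ cs p
    (C' * |σ| ^ (-A) * (s : ℝ) ^ (q + d + 1) / (cs * s) ^ q) hd hσ hs hM hdq hcs hκ0
    hp0 hy0 hr4
    (fun N S c hS hSN hc => by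
      refine (hosc' σ E N s S c hσ hσ1 hzE hs hS hSN hc).trans (ENNReal.ofReal_le_ofReal ?_)
      rw [div_mul_cancel₀ _ (by positivity)])
    (fun N c hc => by
      refine hcond s M N E lam c (by rw [hlam]; linarith) ?_ (hr1.trans hXt) ?_ hr3 hc
      · have h1 : 16 * Cs * lam * (8 * (M * s) + 3 : ℝ) ^ d =
            lam * (16 * Cs * (8 * (M * s) + 3 : ℝ) ^ d) := by ring
        rw [h1]
        calc lam * (16 * Cs * (8 * (M * s) + 3 : ℝ) ^ d) ≤ lam * X :=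
              mul_le_mul_of_nonneg_left hr1 hlam0.le
          _ = 1 := by rw [hX]; field_simp
      · have h1 : ((8 * (M * s) + 5 : ℕ) : ℝ) ≤ (M' : ℕ) := by
          push_cast
          linarith [hr2, hXt, htR, hMR, ht11]
        exact_mod_cast h1)
  obtain ⟨L, N, a, hL, hbox, hP⟩ := inf d σ E g (2 * κ) hd hσ hg (by linarith) hκg L₀
  refine hL₀ L N a hL hbox ?_
  have e : 2 * κ / 2 = κ := by ring
  rw [e] at hP
  exact hP

end Pool.Agent.LE.H54W
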