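import Pool.Agent.Helper93_LEC.AllC
import Pool.Agent.Helper42_LE.MainJ
import Pool.Agent.Helper96_LE.ExactDecay
import Pool.Agent.Helper93_LEW.AllX
import Pool.Agent.Helper54_LEW.WBEZ

/-!
# The band edge theorem with the exact decay rate: assembly
-/

set_option autoImplicit false

open MeasureTheory ProbabilityTheory Filter

open scoped ENNReal NNReal Topology

noncomputable section

namespace Pool.Agent.LE.H54W

open Pool.Agent.Anderson Pool.Agent.Loc Pool.Agent.Mob Pool.Agent.Helper54.Bal Pool.Agent.BED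

universe u

/-- existence of the rate -/
theorem exists_lya {d : ℕ} (hd : 1 ≤ d) {σ : ℝ} (hσ : σ ≠ 0) (E : ℝ) : ∃ g, LyaAt d σ E g := by
  obtain ⟨γ, h0, -⟩ := Pool.Agent.LE.H42J.mainJ.{0} Pool.Agent.LE.H96.mainGT
    Pool.Agent.LE.H96.smpT Pool.Agent.LE.H15.smn Pool.Agent.LE.H96.algT d hd
  exact ⟨γ σ E, Pool.Agent.LE.H96.lyaAt_of_pr (h0 σ hσ E).1 (h0 σ hσ E).2⟩

/-- a rate above the exponent has probability tending to `0` -/
theorem pr_tendsto {d : ℕ} {σ E g κ : ℝ} (h : LyaAt d σ E g) (hκ : g < κ) :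
    Tendsto (H93.pr d σ E κ) atTop (𝓝 0) := by
  have h1 := (h.2 (κ - g) (by linarith)).1
  rw [show g + (κ - g) = κ by ring] at h1
  exact h1

theorem edgeAll (d : ℕ) (hd : 3 ≤ d) :
    ∃ c C : ℝ, 0 < c ∧ 0 < C ∧ ∀ σ : ℝ, σ ≠ 0 → ∀ t R : ℝ, 2 ≤ t → t ≤ R →
      σ ^ 2 * growth d t * Real.log R ≤ c →
      ∃ Es : ℝ, |Es - 2 * d| ≤ C * (σ ^ 2 + 1 / t) ∧
        (∀ (Ω : Type u) [MeasurableSpace Ω] (P : Measure Ω) [IsProbabilityMeasure P]
          (ξ : Site d → Ω → ℝ), (∀ y, Measurable (ξ y)) →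
          (∀ y, P.map (ξ y) = gaussianReal 0 1) → iIndepFun ξ P →
          ∃ G : Set Ω, MeasurableSet G ∧ P Gᶜ ≤ ENNReal.ofReal (1 / R) ∧ ∀ ω ∈ G,
            (∀ lam : ℝ, 1 / t ≤ lam → lam ≤ 1 →
              ∀ (S : Set (Site d)) (J : Finset ℝ) (u : ℝ → L2 d), (∀ E ∈ J, Es - lam ≤ |E|) →
                (∀ E ∈ J, IsEigenOn S (fun y => σ * ξ y ω) E (u E)) →
                ∀ x : Site d, (∀ i, |(x i : ℝ)| ≤ R) →
                  ‖(∑ E ∈ J, u E : L2 d) x‖ ^ 2 ≤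
                    C * lam ^ ((d : ℝ) / 2) * ‖(∑ E ∈ J, u E : L2 d)‖ ^ 2) ∧
            ∀ (x₀ : Site d) (L : ℕ), (∀ i, |(x₀ i : ℝ)| + L ≤ R) →
              ∀ hH : (HM (fun y => σ * ξ y ω) (box x₀ L)).IsHermitian,
                (∀ i, |hH.eigenvalues i| < Es) ∧
                ∀ lam : ℝ, 1 / t ≤ lam → lam ≤ 1 → C ≤ lam * (L : ℝ) ^ 2 →
                  lam ^ ((d : ℝ) / 2) * (2 * (L : ℝ) + 1) ^ d ≤
                    C * ((Finset.univ.filter fun i => Es - lam ≤ hH.eigenvalues i).card : ℝ)) ∧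
        (1 / |σ| ≤ t → ∀ E κ : ℝ, |E - Es| ≤ |σ| → C * (|E - Es| + 1 / t) ^ c < κ →
          Tendsto (H93.pr d σ E κ) atTop (𝓝 0)) := by
  obtain ⟨c1, C1, hc1, hC1, h1⟩ := main_ofZ.{u} flatAll transAll H61.orth countAll H73.edge
    H73.lawT d hd
  obtain ⟨c2, C2, hc2, hC2, h2⟩ := wbeZ H93W.crtT H93W.oscBT H59W.cdf H42W.nux H93W.infT d hd C1 hC1
  obtain ⟨c, hcdef⟩ : ∃ c : ℝ, c = min (min c1 c2) (min (c2 ^ 2 / 2) (1 / 8)) := ⟨_, rfl⟩
  have hc : 0 < c := by rw [hcdef]; positivity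
  have hcc1 : c ≤ c1 := by rw [hcdef]; exact (min_le_left _ _).trans (min_le_left _ _)
  have hcc2 : c ≤ c2 := by rw [hcdef]; exact (min_le_left _ _).trans (min_le_right _ _)
  have hcc3 : c ≤ c2 ^ 2 / 2 := by rw [hcdef]; exact (min_le_right _ _).trans (min_le_left _ _)
  have hcc4 : c ≤ 1 / 8 := by rw [hcdef]; exact (min_le_right _ _).trans (min_le_right _ _)
  refine ⟨c, max C1 C2, hc, by positivity, ?_⟩
  intro σ hσ t R ht htR hcond
  have hσ0 : 0 < |σ| := abs_pos.2 hσ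
  have ht0 : 0 < t := by linarith
  have hg := one_le_growth d (t := t) (by linarith)
  have hlogR : (0.69 : ℝ) ≤ Real.log R := by
    have h1 := Real.log_two_gt_d9
    have h2 : Real.log 2 ≤ Real.log R := Real.log_le_log (by norm_num) (by linarith)
    linarith
  have hσ2 : 0.69 * σ ^ 2 ≤ c := by
    refine le_trans ?_ hcond
    have h3 : 0.69 ≤ growth d t * Real.log R := by nlinarith
    have h4 : 0 ≤ σ ^ 2 := sq_nonneg σ
    nlinarith
  obtain ⟨Es, he1, he2, he3⟩ := h1 σ hσ t R ht htR (hcond.trans hcc1)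
  have hrhs : 0 ≤ σ ^ 2 + 1 / t := by positivity
  refine ⟨Es, he1.trans (mul_le_mul_of_nonneg_right (le_max_left _ _) hrhs), ?_, ?_⟩
  · intro Ω _ P _ ξ hm hlaw hind
    obtain ⟨G, hG1, hG2, hG3⟩ := he3 Ω P ξ hm hlaw hind
    refine ⟨G, hG1, hG2, fun ω hω => ⟨?_, ?_⟩⟩
    · intro lam hl1 hl2 S J u hJ hu x hx
      refine ((hG3 ω hω).1 lam hl1 hl2 S J u hJ hu x hx).trans ?_
      have h3 : 0 ≤ lam ^ ((d : ℝ) / 2) := Real.rpow_nonneg (by
        have : 0 < 1 / t := by positivity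
        linarith) _
      have h4 : C1 ≤ max C1 C2 := le_max_left _ _
      gcongr
    · intro x₀ L hL hH
      obtain ⟨g1, g2⟩ := (hG3 ω hω).2 x₀ L hL hH
      refine ⟨g1, fun lam hl1 hl2 hl3 => ?_⟩
      exact (g2 lam hl1 hl2 ((le_max_left _ _).trans hl3)).trans
        (mul_le_mul_of_nonneg_right (le_max_left _ _) (Nat.cast_nonneg _))
  · intro hσt E κ hE hκ
    obtain ⟨g, hg'⟩ := exists_lya (d := d) (by omega) hσ E
    have hσc : |σ| ≤ c2 := by
      have h3 : |σ| ^ 2 ≤ c2 ^ 2 := by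
        rw [sq_abs]
        linarith
      exact (abs_le_of_sq_le_sq' h3 hc2.le).2
    have h3 := h2 σ t R Es hσ hσc hσt htR he1 he2 E g hE hg'
    refine pr_tendsto hg' (lt_of_le_of_lt (h3.trans ?_) hκ)
    have hb0 : 0 < |E - Es| + 1 / t := by
      have := abs_nonneg (E - Es)
      positivity
    have hb1 : |E - Es| + 1 / t ≤ 1 := by
      have h4 : 1 / t ≤ |σ| := by
        rw [div_le_iff₀ ht0]
        rw [div_le_iff₀ hσ0] at hσt
        linarith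
      have h5 : |σ| ^ 2 ≤ (1 / 2) ^ 2 := by
        have h6 : σ ^ 2 ≤ (1 / 2) ^ 2 := by linarith
        rwa [sq_abs]
      have h6 := (abs_le_of_sq_le_sq' h5 (by norm_num)).2
      linarith
    have h4 : (|E - Es| + 1 / t) ^ c2 ≤ (|E - Es| + 1 / t) ^ c :=
      Real.rpow_le_rpow_of_exponent_ge hb0 hb1 hcc2
    have h5 : 0 ≤ (|E - Es| + 1 / t) ^ c := Real.rpow_nonneg hb0.le _
    exact mul_le_mul (le_max_right _ _) h4 (Real.rpow_nonneg hb0.le _) (by positivity)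

end Pool.Agent.LE.H54W
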