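import Pool.Agent.LE.StmtsY
import Pool.Agent.Helper54_LEW.CPF

/-!
# FPX: the flat landscape function gives both the conduction and the edge
-/

set_option autoImplicit false
set_option linter.unusedSectionVars false

open scoped Topology ENNReal NNReal
open MeasureTheory Filter ProbabilityTheory

noncomputable section

namespace Pool.Agent.LE.H54W

open Pool.Agent.Anderson Pool.Agent.Loc Pool.Agent.Mob Pool.Agent.Helper54.Bal Pool.Agent.LY
  Pool.Agent.LE.H54 Pool.Agent.BED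

theorem fpx (cdf : CdfStmt) : FpxStmt := by
  classical
  intro d hd
  obtain ⟨c0, C0, hc0, hC0, hflat⟩ := flatAll d hd
  obtain ⟨Cs, hCs, hsum⟩ := sumAll d hd
  refine ⟨c0, C0, 16 * Cs, hc0, hC0, by linarith, ?_⟩
  intro M' v σ t p hσ hσ1 hv hM' ht htM hp hp2
  have hs : 0 < |σ| := abs_pos.2 hσ
  have : NeZero M' := ⟨by omega⟩
  set σ' : ℝ≥0 := ⟨|σ|, hs.le⟩ with hσ'
  have hσ'r : (σ' : ℝ) = |σ| := rfl
  have hσ'0 : 0 < σ' := by
    rw [← NNReal.coe_pos, hσ'r]
    exact hs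
  have hσ'1 : σ' ≤ 1 := by
    rw [← NNReal.coe_le_coe, hσ'r]
    simpa using hσ1
  have hvv : v = σ' ^ 2 := by
    apply NNReal.coe_injective
    push_cast
    rw [hσ'r, sq_abs]
    exact hv
  obtain ⟨z, μ, hμ1, hμ2, hz, hz2, hprob⟩ := hflat M' t σ' p hM' ht htM hσ'0 hσ'1
    (by rw [hσ'r, sq_abs]; exact hp) hp2
  rw [hσ'r, sq_abs] at hz2
  rw [← hvv] at hprob
  refine ⟨z, μ, hz2, hz, by linarith, fun _ => hprob, ?_⟩
  intro s M N E lam c hE h1 h2 h3 hlog hbox
  exact cpf_core cdf hd hCs hsum hσ hM' ht htM hv hμ1 hμ2 hz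
    hprob s M N E lam c hE h1 h2 h3 hlog hbox

end Pool.Agent.LE.H54W
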